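import Pool.Agent.K.MP_dc0411_ag.C1

open AlgebraicGeometry Pool.Agent.P.MP_dc0411_ag

namespace Pool.Agent.Results.MP_dc0411_ag.Counterexample

/-- A smooth integral quasi-projective surface over `ℂ` that is Brody hyperbolic (condition (1))
but has infinitely many pointed maps from some pointed curve (condition (3) fails). -/
theorem result : ∃ X : CategoryTheory.Over SpecC, IsQuasiProjective X ∧ IsIntegral X.left ∧
    SmoothOfRelativeDimension 2 X.hom ∧ BrodyHyperbolic X ∧ ¬ PointedFinite X :=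
  ⟨opn UX, quasiProjective_opn UX, integral_X, smooth_opn UX, brody, not_pointedFinite⟩

/-! Side theorems: controls for the definitions. They are not part of the result. Lemmas come
first, the controls are at the end of the file. -/

section Controls

open CategoryTheory TopologicalSpace

/-- The point of `Spec ℂ`. -/
noncomputable abbrev pt0 : SpecC := IsLocalRing.closedPoint ℂ

theorem top_le_iff {Y : Scheme.{0}} (g : SpecC ⟶ Y) (V : Y.Opens) :
    ⊤ ≤ g ⁻¹ᵁ V ↔ g pt0 ∈ V := by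
  constructor
  · intro h
    exact h (Opens.mem_top pt0)
  · intro h x _
    have hx : x = pt0 := Subsingleton.elim (α := PrimeSpectrum ℂ) _ _
    subst hx
    exact h

/-- Evaluation of sections along a morphism from `Spec ℂ`. -/
noncomputable def evalAt {Y : Scheme.{0}} (g : SpecC ⟶ Y) (V : Y.Opens) (h : ⊤ ≤ g ⁻¹ᵁ V) :
    Γ(Y, V) ⟶ CommRingCat.of ℂ :=
  g.appLE V ⊤ h ≫ (Scheme.ΓSpecIso (CommRingCat.of ℂ)).hom

theorem eval_eq {X : Over SpecC} (p : CPoint X) (V : X.left.Opens) (h : p.Mem V)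
    (s : Γ(X.left, V)) : p.eval V s = evalAt p.left V h s := by
  rw [CPoint.eval, dif_pos h]
  rfl

theorem evalAt_res {Y : Scheme.{0}} (g : SpecC ⟶ Y) {V V' : Y.Opens} (j : V' ⟶ V)
    (h' : ⊤ ≤ g ⁻¹ᵁ V') (h : ⊤ ≤ g ⁻¹ᵁ V) (s : Γ(Y, V)) :
    evalAt g V' h' (Y.presheaf.map j.op s) = evalAt g V h s := by
  have e : Y.presheaf.map j.op ≫ evalAt g V' h' = evalAt g V h := by
    rw [evalAt, evalAt, Scheme.Hom.map_appLE_assoc]
  exact congrArg (fun f : Γ(Y, V) ⟶ CommRingCat.of ℂ => f.hom s) e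

theorem evalAt_comp {Y Z : Scheme.{0}} (g : SpecC ⟶ Y) (i : Y ⟶ Z) {g' : SpecC ⟶ Z}
    (hg : g ≫ i = g') (V : Z.Opens) (h : ⊤ ≤ g ⁻¹ᵁ (i ⁻¹ᵁ V)) (h' : ⊤ ≤ g' ⁻¹ᵁ V)
    (t : Γ(Z, V)) : evalAt g (i ⁻¹ᵁ V) h (i.app V t) = evalAt g' V h' t := by
  subst hg
  have e : i.app V ≫ evalAt g (i ⁻¹ᵁ V) h = evalAt (g ≫ i) V h' := by
    rw [evalAt, evalAt, Scheme.Hom.comp_appLE, Category.assoc]
  exact congrArg (fun f : Γ(Z, V) ⟶ CommRingCat.of ℂ => f.hom t) e

theorem evalAt_top {R : CommRingCat.{0}} (φ : R ⟶ CommRingCat.of ℂ)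
    (h : ⊤ ≤ Spec.map φ ⁻¹ᵁ (⊤ : (Spec R).Opens)) (b : R) :
    evalAt (Spec.map φ) ⊤ h ((Scheme.ΓSpecIso R).inv b) = φ b := by
  have h1 : (Spec.map φ).appLE ⊤ ⊤ h = (Spec.map φ).appTop := Scheme.Hom.appLE_eq_app _
  have h4 : (Scheme.ΓSpecIso R).inv ≫ evalAt (Spec.map φ) ⊤ h = φ := by
    rw [evalAt, h1, Scheme.ΓSpecIso_naturality φ, Iso.inv_hom_id_assoc]
  exact congrArg (fun f : R ⟶ CommRingCat.of ℂ => f.hom b) h4

theorem evalAt_alg {R : CommRingCat.{0}} (φ : R ⟶ CommRingCat.of ℂ) (V : (Spec R).Opens)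
    (h : ⊤ ≤ Spec.map φ ⁻¹ᵁ V) (b : R) :
    evalAt (Spec.map φ) V h (algebraMap R Γ(Spec R, V) b) = φ b :=
  (evalAt_res (Spec.map φ) (homOfLE (le_top : V ≤ ⊤)) h le_rfl
    ((Scheme.ΓSpecIso R).inv b)).trans (evalAt_top φ le_rfl b)

theorem mem_basicOpen_iff {R : CommRingCat.{0}} (φ : R ⟶ CommRingCat.of ℂ) (r : R) :
    Spec.map φ pt0 ∈ PrimeSpectrum.basicOpen r ↔ φ r ≠ 0 :=
  not_mem_of_ne_zero pt0 (c := φ r)

theorem away_surj {R : CommRingCat.{0}} (r : R) (t : Γ(Spec R, PrimeSpectrum.basicOpen r)) :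
    ∃ (k : ℕ) (a : R), t * algebraMap R Γ(Spec R, PrimeSpectrum.basicOpen r) (r ^ k) =
      algebraMap R Γ(Spec R, PrimeSpectrum.basicOpen r) a := by
  obtain ⟨⟨a, ⟨_, k, rfl⟩⟩, ha⟩ := IsLocalization.surj (Submonoid.powers r) t
  exact ⟨k, a, ha⟩

/-- Near any point of a locally closed subscheme of `Spec R`, a regular function is a quotient
`a / r ^ k` of elements of `R`. -/
theorem local_form {R : CommRingCat.{0}} {Y : Scheme.{0}} (i : Y ⟶ Spec R) [IsPreimmersion i]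
    (W : Y.Opens) (s : Γ(Y, W)) (y : Y) (hy : y ∈ W) :
    ∃ (r a : R) (k : ℕ), i y ∈ PrimeSpectrum.basicOpen r ∧
      ∀ (g : SpecC ⟶ Y) (φ : R ⟶ CommRingCat.of ℂ), g ≫ i = Spec.map φ → φ r ≠ 0 →
        ∃ h : ⊤ ≤ g ⁻¹ᵁ W, evalAt g W h s * φ r ^ k = φ a := by
  obtain ⟨t0, ht0⟩ := i.stalkMap_surjective y (Y.presheaf.germ W y hy s)
  obtain ⟨V, hV, t, rfl⟩ := (Spec R).presheaf.exists_germ_eq t0
  rw [Scheme.Hom.germ_stalkMap_apply] at ht0
  obtain ⟨W', hW', iU, iV, e⟩ := Y.presheaf.germ_eq y _ _ _ _ ht0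
  obtain ⟨V', hV'o, hV'⟩ := i.isEmbedding.isInducing.isOpen_iff.mp W'.isOpen
  have hyV' : i y ∈ V' := by
    have : y ∈ (W' : Set Y) := hW'
    rw [← hV'] at this
    exact this
  obtain ⟨_, ⟨r, rfl⟩, hr, hrV⟩ :=
    (PrimeSpectrum.isTopologicalBasis_basic_opens (R := R)).exists_subset_of_mem_open
      (show i y ∈ (V : Set (Spec R)) ∩ V' from ⟨hV, hyV'⟩) (V.isOpen.inter hV'o)
  have hDV : (PrimeSpectrum.basicOpen r : (Spec R).Opens) ≤ V := fun x hx => (hrV hx).1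
  obtain ⟨k, a, ha⟩ := away_surj r ((Spec R).presheaf.map (homOfLE hDV).op t)
  refine ⟨r, a, k, hr, fun g φ hg hφ => ?_⟩
  have hD := (mem_basicOpen_iff φ r).mpr hφ
  have hgi : i (g pt0) = Spec.map φ pt0 := by rw [← hg]; rfl
  have hgW' : g pt0 ∈ W' := by
    have : g pt0 ∈ i ⁻¹' V' := by
      change i (g pt0) ∈ V'
      rw [hgi]
      exact (hrV hD).2
    rw [hV'] at this
    exact this
  have h1 := (top_le_iff g W').mpr hgW'
  have h2 := (top_le_iff g W).mpr (iV.le hgW')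
  have h3 := (top_le_iff g (i ⁻¹ᵁ V)).mpr (iU.le hgW')
  have h4 := (top_le_iff (Spec.map φ) (PrimeSpectrum.basicOpen r)).mpr hD
  have h5 := (top_le_iff (Spec.map φ) V).mpr (hDV hD)
  refine ⟨h2, ?_⟩
  have e1 : evalAt g W h2 s =
      evalAt (Spec.map φ) _ h4 ((Spec R).presheaf.map (homOfLE hDV).op t) := by
    rw [← evalAt_res g iV h1 h2, ← e, evalAt_res g iU h1 h3, evalAt_comp g i hg V h3 h5]
    exact (evalAt_res (Spec.map φ) (homOfLE hDV) h4 h5 t).symm
  have e2 := congrArg (evalAt (Spec.map φ) _ h4).hom ha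
  rw [map_mul] at e2
  have e3 := evalAt_alg φ _ h4 (r ^ k)
  have e4 := evalAt_alg φ _ h4 a
  rw [e1, ← map_pow, ← e3, ← e4]
  exact e2

theorem diffOn_top {g : ℂ → ℂ} : DifferentiableOn ℂ g ⊤ ↔ Differentiable ℂ g :=
  differentiableOn_univ

theorem eval_top {R : CommRingCat.{0}} {Y : Over SpecC} (i : Y.left ⟶ Spec R) (p : CPoint Y)
    {φ : R ⟶ CommRingCat.of ℂ} (h : p.left ≫ i = Spec.map φ) (s : Γ(Spec R, ⊤)) :
    p.eval ⊤ (i.appLE ⊤ ⊤ le_top s) = φ ((Scheme.ΓSpecIso R).hom s) := by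
  have h1 : i.appLE ⊤ ⊤ le_top = i.app ⊤ := Scheme.Hom.appLE_eq_app _
  rw [eval_eq _ _ (mem_top _), h1]
  refine (evalAt_comp p.left i h ⊤ (mem_top _) le_rfl _).trans ?_
  have h2 := evalAt_top φ le_rfl ((Scheme.ΓSpecIso R).hom s)
  rwa [Iso.hom_inv_id_apply] at h2

theorem holo_iff_aux {R : CommRingCat.{0}} {Y : Over SpecC} (i : Y.left ⟶ Spec R)
    [IsImmersion i] (f : ℂ → CPoint Y) (φ : ℂ → (R ⟶ CommRingCat.of ℂ))
    (hφ : ∀ z, (f z).left ≫ i = Spec.map (φ z)) :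
    IsHolomorphic f ↔ ∀ r : R, Differentiable ℂ fun z => (φ z r : ℂ) := by
  constructor
  · intro hf r
    have h := (hf ⊤).2 (i.appLE ⊤ ⊤ le_top ((Scheme.ΓSpecIso R).inv r))
    have huniv : {z | (f z).Mem ⊤} = Set.univ := Set.eq_univ_of_forall fun z => mem_top _
    rw [huniv, differentiableOn_univ] at h
    have h2 : (fun z => (f z).eval ⊤ (i.appLE ⊤ ⊤ le_top ((Scheme.ΓSpecIso R).inv r))) =
        fun z => (φ z r : ℂ) := by
      funext z
      rw [eval_top i (f z) (hφ z), Iso.inv_hom_id_apply]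
    rwa [h2] at h
  · intro hd W
    have key : ∀ (s : Γ(Y.left, W)) (z₀ : ℂ), (f z₀).Mem W →
        ∃ (r a : R) (k : ℕ), (φ z₀ r : ℂ) ≠ 0 ∧ ∀ z, (φ z r : ℂ) ≠ 0 → (f z).Mem W ∧
          (f z).eval W s = (φ z a : ℂ) / (φ z r : ℂ) ^ k := by
      intro s z₀ h₀
      obtain ⟨r, a, k, hr, H⟩ := local_form i W s ((f z₀).left pt0) ((top_le_iff _ W).mp h₀)
      refine ⟨r, a, k, ?_, fun z hz => ?_⟩
      · have hgi : i ((f z₀).left pt0) = Spec.map (φ z₀) pt0 := by
          rw [← hφ z₀]; rfl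
        rw [hgi] at hr
        exact (mem_basicOpen_iff _ r).mp hr
      · obtain ⟨h, e⟩ := H (f z).left _ (hφ z) hz
        refine ⟨h, ?_⟩
        rw [eval_eq _ _ h, eq_div_iff (pow_ne_zero k hz)]
        exact e
    have hop : ∀ r : R, IsOpen {z | (φ z r : ℂ) ≠ 0} :=
      fun r => isOpen_ne_fun (hd r).continuous continuous_const
    refine ⟨isOpen_iff_mem_nhds.mpr fun z₀ h₀ => ?_, fun s z₀ h₀ => ?_⟩
    · obtain ⟨r, a, k, hr, H⟩ := key 0 z₀ h₀
      exact Filter.mem_of_superset ((hop r).mem_nhds hr) fun z hz => (H z hz).1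
    · obtain ⟨r, a, k, hr, H⟩ := key s z₀ h₀
      have h1 : DifferentiableAt ℂ (fun z => (φ z a : ℂ) / (φ z r : ℂ) ^ k) z₀ :=
        (hd a z₀).div ((hd r z₀).pow k) (pow_ne_zero k hr)
      refine (h1.congr_of_eventuallyEq ?_).differentiableWithinAt
      exact Filter.mem_of_superset ((hop r).mem_nhds hr) fun z hz => (H z hz).2

theorem diff_poly {n : ℕ} (ψ : ℂ → (Rn n →+* ℂ)) (hC : ∀ z c, ψ z (MvPolynomial.C c) = c)
    (hX : ∀ j, Differentiable ℂ fun z => ψ z (MvPolynomial.X j)) (r : Rn n) :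
    Differentiable ℂ fun z => ψ z r := by
  induction r using MvPolynomial.induction_on with
  | C c => simp only [hC]; exact differentiable_const c
  | add p q hp hq =>
    simp only [map_add]
    exact hp.add hq
  | mul_X p j hp =>
    simp only [map_mul]
    exact hp.mul (hX j)

/-- The coordinates in `ℂⁿ` of a complex point of an open subscheme of affine `n`-space. -/
noncomputable def coords {n : ℕ} {U : (SpecR n).Opens} (p : CPoint (opn U)) (j : Fin n) : ℂ :=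
  p.eval ⊤ (sec U (MvPolynomial.X j))

theorem coords_spec {n : ℕ} {U : (SpecR n).Opens} (p : CPoint (opn U)) :
    p.left ≫ U.ι = algMap (MvPolynomial.aeval (coords p) : Rn n →ₐ[ℂ] ℂ) := by
  obtain ⟨ψ, hψ⟩ := exists_algHom p
  rw [hψ]
  refine congrArg algMap (MvPolynomial.algHom_ext fun j => ?_)
  rw [MvPolynomial.aeval_X]
  exact (eval_sec p hψ (MvPolynomial.X j)).symm

theorem coords_ext {n : ℕ} {U : (SpecR n).Opens} {p q : CPoint (opn U)}
    (h : ∀ j, coords p j = coords q j) : p = q :=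
  cpoint_ext (by rw [coords_spec p, coords_spec q, funext h])

theorem exists_coords {n : ℕ} (U : (SpecR n).Opens) (v : Fin n → ℂ) :
    (∃ p : CPoint (opn U), ∀ j, coords p j = v j) ↔
      algMap (MvPolynomial.aeval v : Rn n →ₐ[ℂ] ℂ) pt0 ∈ U := by
  constructor
  · rintro ⟨p, h⟩
    rw [← funext h, ← coords_spec p]
    exact (p.left pt0).2
  · intro h
    have h' : ∀ y, algMap (MvPolynomial.aeval v : Rn n →ₐ[ℂ] ℂ) y ∈ U := fun y => by
      rw [Subsingleton.elim (α := PrimeSpectrum ℂ) y pt0]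
      exact h
    exact ⟨pointOf U _ h', fun j =>
      (eval_sec _ (pointOf_ι U _ h') (MvPolynomial.X j)).trans (MvPolynomial.aeval_X v j)⟩

theorem holo_iff_coords {n : ℕ} {U : (SpecR n).Opens} (f : ℂ → CPoint (opn U)) :
    IsHolomorphic f ↔ ∀ j, Differentiable ℂ fun z => coords (f z) j := by
  refine (holo_iff_aux (Y := opn U) U.ι f _ fun z => coords_spec (f z)).trans
    ⟨fun h j => ?_, fun h r => ?_⟩
  · simpa using h (MvPolynomial.X j)
  · refine diff_poly (fun z => (MvPolynomial.aeval (coords (f z)) : Rn n →ₐ[ℂ] ℂ).toRingHom)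
      (fun z c => by simp) (fun j => ?_) r
    simpa using h j

/-- The basic open set `D(r)` of the affine line. -/
noncomputable def lineOpen (r : Rn 1) : (SpecR 1).Opens := PrimeSpectrum.basicOpen r

theorem line_model (r : Rn 1) (hr : ∃ a : ℂ, MvPolynomial.aeval ![a] r ≠ 0) :
    IsQuasiProjective (opn (lineOpen r)) ∧ IsIntegral (opn (lineOpen r)).left ∧
      SmoothOfRelativeDimension 1 (opn (lineOpen r)).hom ∧
      (∀ p q : CPoint (opn (lineOpen r)), coords p 0 = coords q 0 → p = q) ∧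
      (∀ a : ℂ, (∃ p : CPoint (opn (lineOpen r)), coords p 0 = a) ↔
        MvPolynomial.aeval ![a] r ≠ 0) ∧
      ∀ f : ℂ → CPoint (opn (lineOpen r)),
        IsHolomorphic f ↔ DifferentiableOn ℂ (fun z => coords (f z) 0) ⊤ := by
  have hm : ∀ a : ℂ, algMap (MvPolynomial.aeval ![a] : Rn 1 →ₐ[ℂ] ℂ) pt0 ∈ lineOpen r ↔
      MvPolynomial.aeval ![a] r ≠ 0 := fun a =>
    (algMap_mem_basicOpen _ pt0 r).trans (not_mem_of_ne_zero pt0)
  obtain ⟨a, ha⟩ := hr
  refine ⟨quasiProjective_opn _, integral_opn _ ⟨_, (hm a).mpr ha⟩, smooth_opn _,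
    fun p q h => coords_ext (Fin.forall_fin_one.mpr h), fun a => ?_, fun f => ?_⟩
  · rw [← hm, ← exists_coords]
    simp only [Fin.forall_fin_one, Matrix.cons_val_zero]
  · rw [holo_iff_coords, Fin.forall_fin_one, diffOn_top]

/-- The complex point of affine space given by an algebra map. -/
noncomputable def affPt {n : ℕ} (ψ : Rn n →ₐ[ℂ] ℂ) : CPoint (Over.mk (strMap n)) :=
  Over.homMk (algMap ψ) (by
    change algMap ψ ≫ strMap n = 𝟙 SpecC
    rw [algMap_strMap]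
    simp)

/-! The controls. -/

/-- Let `Y` be a locally closed subscheme of an affine scheme `Spec R`, and let the complex point
`f z` be given by the ring map `φ z : R → ℂ`. Then `f` is holomorphic in our sense if and only if
`z ↦ φ z r` is entire for every `r` in `R`. -/
theorem holo_iff_regular {R : CommRingCat.{0}} {Y : Over SpecC} (i : Y.left ⟶ Spec R)
    [IsImmersion i] (f : ℂ → CPoint Y) (φ : ℂ → (R ⟶ CommRingCat.of ℂ))
    (hφ : ∀ z, (f z).left ≫ i = Spec.map (φ z)) :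
    IsHolomorphic f ↔ ∀ r : R, DifferentiableOn ℂ (fun z => (φ z).hom r) ⊤ :=
  (holo_iff_aux i f φ hφ).trans (forall_congr' fun _ => diffOn_top.symm)

/-- For a locally closed subscheme `Y` of affine `n`-space over `ℂ`: `f` is holomorphic in our
sense if and only if every linear form pulls back to an entire function, that is, if and only if
the coordinate map `ℂ → ℂⁿ` of `f` is entire. -/
theorem holo_iff_linear {n : ℕ} {Y : Over SpecC}
    (i : Y ⟶ Over.mk (Spec.map (CommRingCat.ofHom (algebraMap ℂ (MvPolynomial (Fin n) ℂ)))))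
    [IsImmersion i.left] (f : ℂ → CPoint Y) (φ : ℂ → RingHom (MvPolynomial (Fin n) ℂ) ℂ)
    (hφ : ∀ z, (f z ≫ i).left = Spec.map (CommRingCat.ofHom (φ z))) :
    IsHolomorphic f ↔ ∀ r ∈ MvPolynomial.homogeneousSubmodule (Fin n) ℂ 1,
      DifferentiableOn ℂ (fun z => φ z r) ⊤ := by
  have hi : IsImmersion (Y := SpecR n) i.left := inferInstance
  refine (holo_iff_aux (R := CommRingCat.of (Rn n)) i.left f
    (fun z => CommRingCat.ofHom (φ z)) hφ).trans ⟨fun h r _ => diffOn_top.mpr (h r), fun h r => ?_⟩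
  refine diff_poly φ (fun z c => ?_)
    (fun j => diffOn_top.mp (h _ (MvPolynomial.isHomogeneous_X ℂ j))) r
  have hw : (f z ≫ i).left ≫ strMap n = 𝟙 SpecC := Over.w (f z ≫ i)
  rw [hφ z, ← Spec.map_comp, ← Spec.map_id] at hw
  exact congrArg (fun g : CommRingCat.of ℂ ⟶ CommRingCat.of ℂ => g.hom c) (Spec.map_injective hw)

/-- For a locally closed subscheme `Y` of `Spec R`, `BrodyHyperbolic Y` says: every family of
complex points of `Y` along which all elements of `R` are entire functions is constant. -/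
theorem brody_iff {R : CommRingCat.{0}} {Y : Over SpecC} (i : Y.left ⟶ Spec R) [IsImmersion i] :
    BrodyHyperbolic Y ↔ ∀ φ : ℂ → (R ⟶ CommRingCat.of ℂ),
      (∀ z, ∃ p : CPoint Y, p.left ≫ i = Spec.map (φ z)) →
      (∀ r : R, DifferentiableOn ℂ (fun z => (φ z).hom r) ⊤) → ∀ z w, φ z = φ w := by
  constructor
  · intro h φ hY hd z w
    choose f hf using hY
    apply Spec.map_injective
    rw [← hf z, ← hf w, h f ((holo_iff_regular i f φ hf).mpr hd) z w]
  · intro h f hf z w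
    have hφ : ∀ z, (f z).left ≫ i = Spec.map (Spec.preimage ((f z).left ≫ i)) :=
      fun z => (Spec.map_preimage _).symm
    have e := h _ (fun z => ⟨f z, hφ z⟩) ((holo_iff_regular i f _ hφ).mp hf) z w
    ext1
    rw [← cancel_mono i, hφ z, hφ w, e]

/-- The affine line is not Brody hyperbolic. -/
theorem not_brody_line : ¬ BrodyHyperbolic
    (Over.mk (Spec.map (CommRingCat.ofHom (algebraMap ℂ (MvPolynomial (Fin 1) ℂ))))) := by
  intro h
  have h1 := (brody_iff (R := CommRingCat.of (Rn 1)) (Y := Over.mk (strMap 1)) (𝟙 _)).mp h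
    (fun z => CommRingCat.ofHom (MvPolynomial.aeval ![z] : Rn 1 →ₐ[ℂ] ℂ).toRingHom)
    (fun z => ⟨affPt (MvPolynomial.aeval ![z]), Category.comp_id _⟩)
    (fun r => diffOn_top.mpr (diff_poly
      (fun z => (MvPolynomial.aeval ![z] : Rn 1 →ₐ[ℂ] ℂ).toRingHom) (fun z c => by simp)
      (Fin.forall_fin_one.mpr (by simp)) r)) 0 1
  simpa using congrArg
    (fun g : CommRingCat.of (Rn 1) ⟶ CommRingCat.of ℂ => g.hom (MvPolynomial.X 0)) h1

/-- The affine line fails condition (3). -/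
theorem not_pointedFinite_line : ¬ PointedFinite
    (Over.mk (Spec.map (CommRingCat.ofHom (algebraMap ℂ (MvPolynomial (Fin 1) ℂ))))) := by
  intro h
  let pt : ℂ → CPoint (opn (⊤ : (SpecR 1).Opens)) := fun t =>
    pointOf ⊤ (MvPolynomial.aeval ![t]) fun _ => trivial
  have hint : IsIntegral (opn (⊤ : (SpecR 1).Opens)).left :=
    integral_opn ⊤ ⟨algMap (MvPolynomial.aeval ![0] : Rn 1 →ₐ[ℂ] ℂ) pt0, trivial⟩
  have hfin := h (opn ⊤) (quasiProjective_opn ⊤) (smooth_opn ⊤) inferInstance (pt 0)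
    (affPt (MvPolynomial.aeval ![0]))
  let ψ : ℂ → (Rn 1 →ₐ[ℂ] Rn 1) := fun a =>
    MvPolynomial.aeval ![MvPolynomial.C a * MvPolynomial.X 0]
  let F : ℂ → (opn (⊤ : (SpecR 1).Opens) ⟶ Over.mk (strMap 1)) := fun a =>
    Over.homMk ((⊤ : (SpecR 1).Opens).ι ≫ algMap (ψ a)) (by
      change (_ ≫ algMap (ψ a)) ≫ strMap 1 = (⊤ : (SpecR 1).Opens).ι ≫ strMap 1
      rw [Category.assoc, algMap_strMap])
  have hcomp : ∀ a t : ℂ, (pt t ≫ F a).left =
      algMap (MvPolynomial.aeval ![a * t] : Rn 1 →ₐ[ℂ] ℂ) := by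
    intro a t
    have e2 := pointOf_ι (⊤ : (SpecR 1).Opens) (MvPolynomial.aeval ![t]) fun _ => trivial
    have e3 : (pt t ≫ F a).left =
        algMap ((MvPolynomial.aeval ![t] : Rn 1 →ₐ[ℂ] ℂ).comp (ψ a)) := by
      rw [← algMap_comp, ← e2, Category.assoc]
      rfl
    refine e3.trans (congrArg algMap (MvPolynomial.algHom_ext fun j => ?_))
    fin_cases j
    simp [ψ]
  refine Set.infinite_of_injective_forall_mem (f := F) ?_ ?_ hfin
  · intro a b hab
    have e := hcomp a 1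
    rw [hab, hcomp b 1] at e
    simpa using (congrArg (fun χ : Rn 1 →ₐ[ℂ] ℂ => χ (MvPolynomial.X 0))
      (algMap_injective e)).symm
  · intro a
    refine Over.OverMorphism.ext ((hcomp a 0).trans ?_)
    rw [mul_zero]
    rfl

/-- The point `Spec ℂ` satisfies conditions (1) and (3). -/
theorem point_control :
    BrodyHyperbolic (Over.mk (𝟙 SpecC)) ∧ PointedFinite (Over.mk (𝟙 SpecC)) :=
  ⟨fun _ _ _ _ => Over.mkIdTerminal.hom_ext _ _, fun _ _ _ _ _ _ =>
    Set.Subsingleton.finite fun f _ g _ => Over.mkIdTerminal.hom_ext f g⟩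

/-- The curve with complex points `ℂ ∖ {0}` is not Brody hyperbolic (by the exponential map). -/
theorem one_puncture : ∃ (Y : Over SpecC) (s : Γ(Y.left, ⊤)), IsQuasiProjective Y ∧
    IsIntegral Y.left ∧ SmoothOfRelativeDimension 1 Y.hom ∧
    (∀ p q : CPoint Y, p.eval ⊤ s = q.eval ⊤ s → p = q) ∧
    (∀ a : ℂ, (∃ p : CPoint Y, p.eval ⊤ s = a) ↔ a ≠ 0) ∧
    (∀ f : ℂ → CPoint Y, IsHolomorphic f ↔ DifferentiableOn ℂ (fun z => (f z).eval ⊤ s) ⊤) ∧
    ¬ BrodyHyperbolic Y := by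
  obtain ⟨h1, h2, h3, h4, h5, h6⟩ := line_model (MvPolynomial.X 0) ⟨1, by simp⟩
  have h5' : ∀ a : ℂ, (∃ p : CPoint (opn (lineOpen (MvPolynomial.X 0))), coords p 0 = a) ↔
      a ≠ 0 := fun a => (h5 a).trans (by simp)
  refine ⟨_, sec _ (MvPolynomial.X 0), h1, h2, h3, h4, h5', h6, fun h => ?_⟩
  choose f hf using fun z => (h5' _).mpr (Complex.exp_ne_zero z)
  have h7 := h f ((h6 f).mpr (by
    rw [funext hf]
    exact diffOn_top.mpr Complex.differentiable_exp)) 0 (Real.pi * Complex.I)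
  have h8 := hf 0
  rw [h7, hf] at h8
  norm_num [Complex.exp_pi_mul_I] at h8

/-- The curve with complex points `ℂ ∖ {0, 1}` is Brody hyperbolic (little Picard theorem). -/
theorem two_punctures : ∃ (Y : Over SpecC) (s : Γ(Y.left, ⊤)), IsQuasiProjective Y ∧
    IsIntegral Y.left ∧ SmoothOfRelativeDimension 1 Y.hom ∧
    (∀ p q : CPoint Y, p.eval ⊤ s = q.eval ⊤ s → p = q) ∧
    (∀ a : ℂ, (∃ p : CPoint Y, p.eval ⊤ s = a) ↔ a ≠ 0 ∧ a ≠ 1) ∧
    (∀ f : ℂ → CPoint Y, IsHolomorphic f ↔ DifferentiableOn ℂ (fun z => (f z).eval ⊤ s) ⊤) ∧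
    BrodyHyperbolic Y := by
  obtain ⟨h1, h2, h3, h4, h5, h6⟩ :=
    line_model (MvPolynomial.X 0 * (MvPolynomial.X 0 - 1)) ⟨2, by norm_num⟩
  have h5' : ∀ a : ℂ, (∃ p : CPoint (opn (lineOpen (MvPolynomial.X 0 * (MvPolynomial.X 0 - 1)))),
      coords p 0 = a) ↔ a ≠ 0 ∧ a ≠ 1 := fun a => (h5 a).trans (by simp [sub_eq_zero])
  refine ⟨_, sec _ (MvPolynomial.X 0), h1, h2, h3, h4, h5', h6, fun f hf z w => h4 _ _ ?_⟩
  exact little_picard (diffOn_top.mp ((h6 f).mp hf)) (fun z => ((h5' _).mp ⟨f z, rfl⟩).1)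
    (fun z => ((h5' _).mp ⟨f z, rfl⟩).2) z w

/-- The surface of the result, written out. Two regular functions `s`, `t` identify its complex
points with the points `(a, b)` of the plane with `g = ab(a + b) ≠ 1, 2`, minus the six points
with `g = 0` and `a² + ab + b² = 1`; a map from `ℂ` is holomorphic in our sense if and only if
both coordinates are entire; every entire map into that plane set is constant; and the curve `Z`
with complex points `e³ ≠ 1, 2` has a morphism `e ↦ (ae, be)` to the surface whenever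
`ab(a + b) = 1`. -/
theorem explicit_witness : ∃ (Y : Over SpecC) (s t : Γ(Y.left, ⊤)),
    (IsQuasiProjective Y ∧ IsIntegral Y.left ∧ SmoothOfRelativeDimension 2 Y.hom ∧
      BrodyHyperbolic Y ∧ ¬ PointedFinite Y) ∧
    (∀ p q : CPoint Y, p.eval ⊤ s = q.eval ⊤ s → p.eval ⊤ t = q.eval ⊤ t → p = q) ∧
    (∀ a b : ℂ, (∃ p : CPoint Y, p.eval ⊤ s = a ∧ p.eval ⊤ t = b) ↔
      a * b * (a + b) ≠ 1 ∧ a * b * (a + b) ≠ 2 ∧
        (a * b * (a + b) ≠ 0 ∨ a ^ 2 + a * b + b ^ 2 ≠ 1)) ∧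
    (∀ f : ℂ → CPoint Y, IsHolomorphic f ↔ DifferentiableOn ℂ (fun z => (f z).eval ⊤ s) ⊤ ∧
      DifferentiableOn ℂ (fun z => (f z).eval ⊤ t) ⊤) ∧
    (∀ a b : ℂ → ℂ, DifferentiableOn ℂ a ⊤ → DifferentiableOn ℂ b ⊤ →
      (∀ z, a z * b z * (a z + b z) ≠ 1 ∧ a z * b z * (a z + b z) ≠ 2 ∧
        (a z * b z * (a z + b z) ≠ 0 ∨ a z ^ 2 + a z * b z + b z ^ 2 ≠ 1)) →
      ∀ z w, a z = a w ∧ b z = b w) ∧
    ∃ (Z : Over SpecC) (u : Γ(Z.left, ⊤)), IsQuasiProjective Z ∧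
      SmoothOfRelativeDimension 1 Z.hom ∧ ConnectedSpace Z.left ∧
      (∀ p q : CPoint Z, p.eval ⊤ u = q.eval ⊤ u → p = q) ∧
      (∀ e : ℂ, (∃ p : CPoint Z, p.eval ⊤ u = e) ↔ e ^ 3 ≠ 1 ∧ e ^ 3 ≠ 2) ∧
      ∀ a b : ℂ, a * b * (a + b) = 1 → ∃ F : Z ⟶ Y, ∀ p : CPoint Z,
        CPoint.eval (p ≫ F) ⊤ s = a * p.eval ⊤ u ∧ CPoint.eval (p ≫ F) ⊤ t = b * p.eval ⊤ u := by
  refine ⟨opn UX, sec UX (MvPolynomial.X 0), sec UX (MvPolynomial.X 1),
    ⟨quasiProjective_opn UX, integral_X, smooth_opn UX, brody, not_pointedFinite⟩,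
    fun p q h0 h1 => coords_ext (Fin.forall_fin_two.mpr ⟨h0, h1⟩), fun a b => ?_, fun f => ?_,
    fun a b ha hb h => entire_const (diffOn_top.mp ha) (diffOn_top.mp hb) (fun z => (h z).1)
      (fun z => (h z).2.1) fun z => (h z).2.2.imp id sub_ne_zero.mpr, ?_⟩
  · have hg : (MvPolynomial.aeval ![a, b] : Rn 2 →ₐ[ℂ] ℂ) gP = a * b * (a + b) := by simp [gP]
    have hq : (MvPolynomial.aeval ![a, b] : Rn 2 →ₐ[ℂ] ℂ) qP = a ^ 2 + a * b + b ^ 2 - 1 := by
      simp [qP]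
    refine (exists_congr fun p => ?_).trans ((exists_coords UX ![a, b]).trans ?_)
    · exact (Fin.forall_fin_two (p := fun j => coords p j = ![a, b] j)).symm
    · rw [algMap_mem_UX, not_mem_of_ne_zero, not_mem_of_ne_zero]
      simp only [map_mul, map_sub, map_one, map_ofNat, hg, hq]
      generalize a * b * (a + b) = g
      generalize a ^ 2 + a * b + b ^ 2 = q
      simp only [ne_eq, mul_eq_zero, sub_eq_zero]
      tauto
  · rw [holo_iff_coords, Fin.forall_fin_two, diffOn_top, diffOn_top]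
    rfl
  · obtain ⟨h1, h2, h3, h4, h5, -⟩ := line_model
      ((MvPolynomial.X 0 ^ 3 - 1) * (MvPolynomial.X 0 ^ 3 - 2)) ⟨0, by simp [map_ofNat]⟩
    have h2' : IsIntegral (opn VC).left := h2
    refine ⟨opn VC, sec VC (MvPolynomial.X 0), h1, h3, inferInstance, h4,
      fun e => (h5 e).trans (by simp [map_ofNat, sub_eq_zero]), fun a b hab =>
      ⟨liftHom VC UX (lineHom a b) (line_mem hab), fun p => ?_⟩⟩
    have e : (p ≫ liftHom VC UX (lineHom a b) (line_mem hab)).left ≫ UX.ι =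
        algMap ((MvPolynomial.aeval (coords p) : Rn 1 →ₐ[ℂ] ℂ).comp (lineHom a b)) := by
      rw [← algMap_comp, ← coords_spec p, Category.assoc,
        ← liftHom_ι VC UX (lineHom a b) (line_mem hab)]
      rfl
    rw [eval_sec _ e, eval_sec _ e]
    constructor <;> simp [lineHom, coords]

end Controls

end Pool.Agent.Results.MP_dc0411_ag.Counterexample
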