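import Pool.Agent.K.MP_dc0411_ag.C2

open AlgebraicGeometry Pool.Agent.P.MP_dc0411_ag

namespace Pool.Agent.Results.MP_dc0411_ag.LogCanonical

/-- A smooth integral projective threefold `Y` with a simple normal crossings divisor `D` such that
`K_Y + D` is ample, `X = Y ∖ D` is Brody hyperbolic (condition (1)), and condition (3) fails
for `X`. -/
theorem result : ∃ (Y : CategoryTheory.Over SpecC) (X : Y.left.Opens), IsProjective Y ∧
    IsIntegral Y.left ∧ SmoothOfRelativeDimension 3 Y.hom ∧ LogCanonicallyPolarized Y.hom X 3 ∧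
    IsQuasiProjective (openPart Y X) ∧ BrodyHyperbolic (openPart Y X) ∧
    ¬ PointedFinite (openPart Y X) :=
  lc_main

end Pool.Agent.Results.MP_dc0411_ag.LogCanonical
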