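import Pool.Agent.K.MP_dc0411_ag.C3

open AlgebraicGeometry Pool.Agent.P.MP_dc0411_ag

namespace Pool.Agent.Results.MP_dc0411_ag.LogGeneral

/-- A smooth integral quasi-projective surface over `ℂ` all of whose subvarieties are of
log-general type (condition (2)) but which has infinitely many pointed maps from some pointed
curve (condition (3) fails). -/
theorem result : ∃ X : CategoryTheory.Over SpecC, IsQuasiProjective X ∧ IsIntegral X.left ∧
    SmoothOfRelativeDimension 2 X.hom ∧ Lit.ConditionTwo X ∧ ¬ PointedFinite X :=
  ⟨opn UX, quasiProjective_opn UX, integral_X, smooth_opn UX, Cmp.conditionTwo_of logGeneral,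
    not_pointedFinite⟩

end Pool.Agent.Results.MP_dc0411_ag.LogGeneral
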